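import Pool.Agent.R379.NS.Final

set_option autoImplicit false

namespace Pool.Agent.Results.MP_e1d67a_co.UniqueApery

open Pool.Agent.R379.NS

/-- For all `e = m = 1` or `2 ≤ e ≤ m` some numerical semigroup `S` with embedding dimension `e`
and multiplicity `m` attains the maximum of `eta` over all such semigroups, and every element of
its Apery set has exactly one factorization. -/
theorem result (e m : ℕ) (h : (e = 1 ∧ m = 1) ∨ (2 ≤ e ∧ e ≤ m)) :
    ∃ S : AddSubmonoid ℕ, IsNumSgp S ∧ embDim S = e ∧ mult S = m ∧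
      IsGreatest {k | ∃ T : AddSubmonoid ℕ, IsNumSgp T ∧ embDim T = e ∧ mult T = m ∧ eta T = k}
        (eta S) ∧
      ∀ n ∈ Ap S, ∃! a : gens S →₀ ℕ, phi (fun g : gens S => (g : ℕ)) a = n := by
  obtain ⟨T0, h1, h2, h3⟩ := exists_sgp e m h
  have hne : {k | ∃ T : AddSubmonoid ℕ, IsNumSgp T ∧ embDim T = e ∧ mult T = m ∧
      eta T = k}.Nonempty := ⟨_, T0, h1, h2, h3, rfl⟩
  have hbdd : BddAbove {k | ∃ T : AddSubmonoid ℕ, IsNumSgp T ∧ embDim T = e ∧ mult T = m ∧
      eta T = k} := by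
    refine ⟨(m + 1) ^ e, ?_⟩
    rintro _ ⟨T, hT, he, hm, rfl⟩
    have := bound T hT
    rwa [he, hm] at this
  obtain ⟨T, hT, he, hm, hmax⟩ := Nat.sSup_mem hne hbdd
  obtain ⟨S, hS, hSe, hSm, hle, huniq⟩ := exists_generic T hT
  refine ⟨S, hS, by rw [hSe, he], by rw [hSm, hm], ⟨⟨S, hS, by rw [hSe, he], by rw [hSm, hm],
    rfl⟩, ?_⟩, huniq⟩
  intro k hk
  have := le_csSup hbdd hk
  omega

end Pool.Agent.Results.MP_e1d67a_co.UniqueApery
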